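import Pool.Agent.Helper95.PN.Stmts
import Pool.Agent.Helper25.PM.INLM

set_option autoImplicit false

/-!
# PN, row INLJ: the inner cut off with a given Morawetz bound
-/

namespace Pool.Agent.Helper95.PW

open MeasureTheory Filter

theorem st_INLJ (h1 : ST_CSQM) (h2 : ST_STB) (h3 : ST_AIDM) (h4 : ST_CIDM) (h5 : ST_BINJ)
    (h7 : ST_ERR) (hI : ST_INTM) (h6 : ST_MORM) : ST_INLJ := by
  obtain ⟨C, hC, hB⟩ := h5
  refine ⟨C + 2, by positivity, ?_⟩
  intro n NN X Z E g K R M S hLow hZ hK hg hR hSc hoff hin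
  obtain ⟨z, hz⟩ : ∃ z : ℝ, z = ∑ j, Z j := ⟨_, rfl⟩
  have hz0 : 0 ≤ z := by rw [hz]; exact Finset.sum_nonneg fun j _ => hZ j
  choose Cm hCm hE using fun m => h7 n (g m) (hg m).sm (hg m).cs
  obtain ⟨C1, hC1, hCle⟩ : ∃ C1 : ℝ, 0 < C1 ∧ ∀ m, Cm m ≤ C1 := by
    refine ⟨Cm 0 + Cm 1 + Cm 2, by linarith [hCm 0, hCm 1, hCm 2], fun m => ?_⟩
    fin_cases m <;> simp <;> linarith [hCm 0, hCm 1, hCm 2]
  obtain ⟨M0, hM0, hMM⟩ : ∃ M0 : ℝ, 0 ≤ M0 ∧ M ≤ M0 := ⟨|M|, abs_nonneg _, le_abs_self _⟩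
  obtain ⟨D, hDdef⟩ : ∃ D, D = Real.sqrt (C1 * (2 * M0 + 2)) := ⟨_, rfl⟩
  have hD : 0 ≤ D := by rw [hDdef]; exact Real.sqrt_nonneg _
  have hn0 : (0:ℝ) ≤ n := Nat.cast_nonneg _
  obtain ⟨Bs, hBs⟩ : ∃ Bs, Bs = z * (4 * z * M0 + 8 * Real.sqrt (n * M0)) := ⟨_, rfl⟩
  have hBs0 : 0 ≤ Bs := by rw [hBs]; positivity
  refine ⟨3 * K ^ 2 * (2 * n) * (0 + 3 * D) +
    D * (C * K ^ 2 * ((M0 + M0 + M0) / R ^ 2 + 2 * n / R ^ 4) + 2 * (Bs / 4) +
      (0 + 3 * D)) + 4 * D * (C1 * (M0 + 2)) + 1, by positivity, ?_⟩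
  intro u hu hA hsq hkin hpair hone hdd hres B1 s0 hB1 hs0 hmor m
  have hh := INLM_h2 hI X Z E hu
  have ρ0 : 0 ≤ Real.sqrt (resM X Z E u) := Real.sqrt_nonneg _
  have ρ1 : Real.sqrt (resM X Z E u) ≤ 1 := Real.sqrt_le_one.2 hres
  have hcau : ∀ f : Wf n, Sm f → sq f ≤ C1 * (2 * M0 + 2) →
      |∑ s, ∫ x, f s x * (hmM X Z (u s) x - E * u s x)| ≤ D * Real.sqrt (resM X Z E u) := by
    intro f hf hs
    refine (INL_cauchy hf hh).trans ?_
    rw [hDdef]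
    exact mul_le_mul (Real.sqrt_le_sqrt hs) le_rfl (Real.sqrt_nonneg _) (Real.sqrt_nonneg _)
  have sq0 : ∀ v : Wf n, 0 ≤ sq v := fun v =>
    Finset.sum_nonneg fun s _ => integral_nonneg fun x => sq_nonneg _
  have kin0 : 0 ≤ kin u := Finset.sum_nonneg fun k _ => Finset.sum_nonneg fun i _ => sq0 _
  have dd0 : 0 ≤ dd u := Finset.sum_nonneg fun k _ => Finset.sum_nonneg fun i _ =>
    Finset.sum_nonneg fun l _ => Finset.sum_nonneg fun m _ => sq0 _
  have rep0 : ∀ x : Cf n, 0 ≤ rep x := fun x => Finset.sum_nonneg fun k _ =>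
    Finset.sum_nonneg fun l _ => by
      split_ifs
      · exact div_nonneg zero_le_one (INL_nr0 _)
      · exact le_rfl
  have pair0 : 0 ≤ pair u := Finset.sum_nonneg fun s _ => integral_nonneg fun x =>
    mul_nonneg (rep0 x) (sq_nonneg _)
  have on0 : 0 ≤ one (pot X Z) u := INL_one0 (fun y => INLM_pot0 X Z hZ y) u
  have ν0 : 0 ≤ one (ind S) u := INL_one0 (fun y => ((INLM_ind S hSc).2 y).1) u
  have ν1 : one (ind S) u ≤ 2 * n := by
    refine (INLM_one1 S hSc hu).trans ?_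
    nlinarith
  have su0 := sq0 u
  have SF : ∀ m, Sm (fun s => Fg (g m) (u s)) := fun m => (h2 n (g m) u (hg m).sm hu).1
  have SP : ∀ m, Sm (fun s => Pg (g m) (u s)) := fun m => (h2 n (g m) u (hg m).sm hu).2.1
  have AF : ∀ m, Anti (fun s => Fg (g m) (u s)) := fun m =>
    ((h2 n (g m) u (hg m).sm hu).2.2 hA).1
  have AP : ∀ m, Anti (fun s => Pg (g m) (u s)) := fun m =>
    ((h2 n (g m) u (hg m).sm hu).2.2 hA).2
  have SFF : ∀ m, Sm (fun s => Fg (g m) (Fg (g m) (u s))) := fun m =>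
    (h2 n (g m) (fun s => Fg (g m) (u s)) (hg m).sm (SF m)).1
  have SFP : ∀ m, Sm (fun s => Fg (g m) (Pg (g m) (u s))) := fun m =>
    (h2 n (g m) (fun s => Pg (g m) (u s)) (hg m).sm (SP m)).1
  have SPP : ∀ m, Sm (fun s => Pg (g m) (Pg (g m) (u s))) := fun m =>
    (h2 n (g m) (fun s => Pg (g m) (u s)) (hg m).sm (SP m)).2.1
  have bd : ∀ (m : Fin 3) (y : ℝ), 0 ≤ y → y ≤ 2 * M0 + 2 → Cm m * y ≤ C1 * (2 * M0 + 2) :=
    fun m y hy0 hy => mul_le_mul (hCle m) hy hy0 hC1.le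
  have a1 : ∀ m, |∑ s, ∫ x, Fg (g m) (Fg (g m) (u s)) x * (hmM X Z (u s) x - E * u s x)| ≤
      D * Real.sqrt (resM X Z E u) := fun m =>
    hcau _ (SFF m) ((hE m u hu).1.trans (bd m _ su0 (by linarith)))
  have a2 : ∀ m, |∑ s, ∫ x, Fg (g m) (Pg (g m) (u s)) x * (hmM X Z (u s) x - E * u s x)| ≤
      D * Real.sqrt (resM X Z E u) := fun m =>
    hcau _ (SFP m) ((hE m u hu).2.2.1.trans (bd m _ (by linarith) (by linarith)))
  have a3 : ∀ m, |∑ s, ∫ x, Pg (g m) (Pg (g m) (u s)) x * (hmM X Z (u s) x - E * u s x)| ≤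
      D * Real.sqrt (resM X Z E u) := fun m =>
    hcau _ (SPP m) ((hE m u hu).2.2.2.trans (bd m _ (by linarith) (by linarith)))
  have hP0 : sq (fun s => Pg (g m) (u s)) ≤ C1 * (M0 + 2) :=
    (hE m u hu).2.1.trans (mul_le_mul (hCle m) (by linarith) (by linarith) hC1.le)
  have b0 : ∀ m, 0 ≤ QM X Z (fun s => Pg (g m) (u s)) - E * sq (fun s => Pg (g m) (u s)) :=
    fun m => sub_nonneg.2 (hLow _ (SP m) (AP m))
  have hmor2 : ∀ s : ℝ, 0 < s → ∑ j, Z j * one (fun y => mor s (y - X j)) u ≤ Bs := by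
    intro s hs
    have hs1 : 4 * z * kin u + 8 * Real.sqrt (n * kin u * resM X Z E u) ≤
        4 * z * M0 + 8 * Real.sqrt (n * M0) := by
      have k1 := hkin.trans hMM
      have k2 : n * kin u * resM X Z E u ≤ n * M0 := by
        have r0 : resM X Z E u ≤ 1 := hres
        calc n * kin u * resM X Z E u ≤ n * kin u * 1 :=
              mul_le_mul_of_nonneg_left r0 (mul_nonneg hn0 kin0)
          _ = n * kin u := mul_one _
          _ ≤ n * M0 := mul_le_mul_of_nonneg_left k1 hn0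
      have k3 := Real.sqrt_le_sqrt k2
      have k4 : 4 * z * kin u ≤ 4 * z * M0 := mul_le_mul_of_nonneg_left k1 (by positivity)
      linarith
    calc ∑ j, Z j * one (fun y => mor s (y - X j)) u
        ≤ ∑ j, Z j * (4 * z * M0 + 8 * Real.sqrt (n * M0)) :=
          Finset.sum_le_sum fun j _ => mul_le_mul_of_nonneg_left
            ((by rw [hz]; exact h6 n NN X Z E s (X j) u hZ hs hu : _ ≤
              4 * z * kin u + 8 * Real.sqrt (n * kin u * resM X Z E u)).trans hs1) (hZ j)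
      _ = Bs := by rw [← Finset.sum_mul, ← hz, hBs]
  obtain ⟨Bm, hBm⟩ : ∃ Bm, Bm = min B1 Bs := ⟨_, rfl⟩
  have hBm0 : 0 ≤ Bm := by rw [hBm]; exact le_min hB1 hBs0
  have hBm1 : Bm ≤ B1 := by rw [hBm]; exact min_le_left _ _
  have hBm2 : Bm ≤ Bs := by rw [hBm]; exact min_le_right _ _
  have hbin := hB n NN X Z E g K R Bm s0 S u
    hZ hg hR hs0 hSc hoff hin hu (fun s hs hs' => by
      rw [hBm]
      exact le_min (hmor s hs hs') (hmor2 s hs))
  have hsing := Finset.single_le_sum (f := fun m => QM X Z (fun s => Pg (g m) (u s)) -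
    E * sq (fun s => Pg (g m) (u s))) (fun m _ => b0 m) (Finset.mem_univ m)
  have herr : -(∑ m, ∑ s, ∫ x, Pg (g m) (Pg (g m) (u s)) x * (hmM X Z (u s) x - E * u s x)) ≤
      3 * (D * Real.sqrt (resM X Z E u)) := by
    rw [← Finset.sum_neg_distrib]
    calc ∑ m, -(∑ s, ∫ x, Pg (g m) (Pg (g m) (u s)) x * (hmM X Z (u s) x - E * u s x)) ≤
        ∑ _m : Fin 3, D * Real.sqrt (resM X Z E u) := Finset.sum_le_sum fun m _ => by
          have := (abs_le.1 (a3 m)).1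
          linarith
      _ = _ := by simp
  have hS0 : 0 ≤ (kin u + pair u + one (pot X Z) u) / R ^ 2 + one (ind S) u / R ^ 4 := by
    positivity
  have hS1 : (kin u + pair u + one (pot X Z) u) / R ^ 2 + one (ind S) u / R ^ 4 ≤
      (M0 + M0 + M0) / R ^ 2 + 2 * n / R ^ 4 := by
    have k1 := hkin.trans hMM
    have k2 := hpair.trans hMM
    have k3 := hone.trans hMM
    gcongr
  have hcs := h1 n NN X Z E (fun s => Fg (g m) (u s)) (fun s => Pg (g m) (u s)) hLow (SF m)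
    (AF m) (SP m) (AP m)
  rw [h4 n NN X Z E (g m) u (hg m).sm hu, h3 n NN X Z E (g m) u (hg m).sm hu] at hcs
  have hfin := INL_fin hcs (a1 m) (a2 m)
    ⟨INL_one0 (fun y => Finset.sum_nonneg fun i _ => sq_nonneg _) u,
      INLM_grd (hg m) S hSc (hoff m) hu⟩
    (C := C) (S := (kin u + pair u + one (pot X Z) u) / R ^ 2 + one (ind S) u / R ^ 4)
    (X := Bm / 4) (q := 0)
    ⟨b0 m, by
      have := hsing.trans hbin
      linarith [this, herr]⟩ ⟨ρ0, ρ1⟩ ⟨sq0 _, hP0⟩ ⟨ν0, ν1⟩ ⟨hS0, hS1⟩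
    ⟨by positivity, by linarith⟩ (X0 := Bs / 4) hK hC.le hD le_rfl
  refine hfin.trans ?_
  have hx : (C + 2) * K ^ 4 * (one (ind S) u * ((kin u + pair u + one (pot X Z) u) / R ^ 2 +
      one (ind S) u / R ^ 4 + Bm / 4)) ≤ (C + 2) * K ^ 4 * (one (ind S) u *
        ((kin u + pair u + one (pot X Z) u) / R ^ 2 + one (ind S) u / R ^ 4 + B1)) := by
    apply mul_le_mul_of_nonneg_left _ (by positivity)
    apply mul_le_mul_of_nonneg_left _ ν0
    linarith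
  nlinarith

end Pool.Agent.Helper95.PW
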